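import Pool.Agent.Q218.WPL.Main

/-!
# The WPL tree algorithm is not `O(1)`-static-competitive

The trees, the rotations, the weighted path length, the WPL tree algorithm (`wplCost`) and the static
optimum (`staticOpt`) are defined in `Pool/Agent/Q218/WPL/Defs.lean`.

Idea: the initial tree is the zig-zag path with the keys `1, n, 2, n - 1, 3, …` from the root
downwards, and the requests go again and again along this path from the root downwards. When `x` is
requested, its counter becomes equal to the counter of its parent `p`; rotating `x` over `p` changes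
the weighted path length by `w p - w x = 0`, so no rotation is ever performed, and a request costs
`(n + 1) / 2` on average.
-/

set_option autoImplicit false

namespace Pool.Agent.Results.MP_037a8f_lc.NotStaticCompetitive

open Pool.Agent.Q218.WPL Pool.Agent.Q218.WPL.Tree

/-- (1) For every constant `c` and all sufficiently large `n` there is an initial tree on the keys
`1, …, n` such that for every `a` some access sequence makes the WPL tree algorithm cost more than
`c · OPT_st + a`. So it is not `O(1)`-static-competitive.
(2) For every `n ≥ 2` there is an initial tree such that for every `a` some access sequence makes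
the WPL tree algorithm cost at least `n / (4 (log₂ n + 1)) · OPT_st + a`. -/
theorem result :
    (∀ c : ℝ, ∃ N : ℕ, ∀ n ≥ N, ∃ T₀ : Tree, T₀.IsSearchTree n ∧
      ∀ a : ℝ, ∃ σ : List ℕ, (∀ x ∈ σ, 1 ≤ x ∧ x ≤ n) ∧
        c * staticOpt n σ + a < wplCost n T₀ σ) ∧
    (∀ n : ℕ, 2 ≤ n → ∃ T₀ : Tree, T₀.IsSearchTree n ∧ ∀ a : ℝ,
      ∃ σ : List ℕ, (∀ x ∈ σ, 1 ≤ x ∧ x ≤ n) ∧
        (n : ℝ) / (4 * (Real.logb 2 n + 1)) * staticOpt n σ + a ≤ wplCost n T₀ σ) :=
  ⟨static_main, fun _ hn => static_ratio hn⟩

end Pool.Agent.Results.MP_037a8f_lc.NotStaticCompetitive
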